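import Pool.Agent.Run7.h860.Hd.Stm

/-!
# DC: a down-closed subset of `n` elements of large weight
-/

set_option autoImplicit false

open Finset

namespace Run7.h576.HD

open Pool.Agent.Run7.h860.Hd

theorem dc_aux (ι : Type) [DecidableEq ι] (w : ι × ℕ → ℝ) (hw : ∀ p, 0 ≤ w p)
    (hm : ∀ i j, w (i, j + 1) ≤ w (i, j)) (m : ℕ) :
    ∀ I : Finset (ι × ℕ), I.card = m → Down I → ∀ n : ℕ, n ≤ m →
    ∃ J ⊆ I, Down J ∧ J.card = n ∧ (n : ℝ) * ∑ p ∈ I, w p ≤ m * ∑ p ∈ J, w p := by
  induction m with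
  | zero =>
    intro I hI hD n hn
    obtain rfl : n = 0 := by omega
    refine ⟨I, Finset.Subset.refl _, hD, hI, ?_⟩
    simp
  | succ m ih =>
    intro I hI hD n hn
    rcases Nat.lt_or_ge n (m + 1) with hlt | hge
    swap
    · obtain rfl : n = m + 1 := by omega
      exact ⟨I, Finset.Subset.refl _, hD, hI, le_refl _⟩
    have hne : I.Nonempty := by
      rw [← Finset.card_pos, hI]
      omega
    obtain ⟨p, hp, hpmin⟩ := I.exists_min_image w hne
    have hanti : ∀ i j j', j' ≤ j → w (i, j) ≤ w (i, j') := fun i j j' h =>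
      antitone_nat_of_succ_le (f := fun j => w (i, j)) (hm i) h
    obtain ⟨q, hq, hqmax⟩ := (I.filter fun q => q.1 = p.1).exists_max_image (fun q => q.2)
      ⟨p, Finset.mem_filter.mpr ⟨hp, rfl⟩⟩
    obtain ⟨hqI, hq1⟩ := Finset.mem_filter.mp hq
    have hqp : w q ≤ w p := by
      have h1 : p.2 ≤ q.2 := hqmax p (Finset.mem_filter.mpr ⟨hp, rfl⟩)
      have h2 := hanti p.1 q.2 p.2 h1
      rw [← hq1] at h2
      have h3 : (q.1, p.2) = p := by rw [hq1]
      rwa [h3] at h2
    have hqmin : ∀ r ∈ I, w q ≤ w r := fun r hr => hqp.trans (hpmin r hr)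
    have hD' : Down (I.erase q) := by
      intro i j hij
      rw [Finset.mem_erase] at hij ⊢
      refine ⟨?_, hD i j hij.2⟩
      rintro rfl
      have := hqmax (i, j + 1) (Finset.mem_filter.mpr ⟨hij.2, hq1⟩)
      simp only at this
      omega
    have hc' : (I.erase q).card = m := by
      rw [Finset.card_erase_of_mem hqI, hI]
      rfl
    obtain ⟨J, hJ1, hJ2, hJ3, hJ4⟩ := ih (I.erase q) hc' hD' n (by omega)
    refine ⟨J, hJ1.trans (Finset.erase_subset _ _), hJ2, hJ3, ?_⟩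
    have hsum : ∑ r ∈ I.erase q, w r = ∑ r ∈ I, w r - w q := by
      rw [← Finset.sum_erase_add I w hqI]
      ring
    have hcard : ((m + 1 : ℕ) : ℝ) * w q ≤ ∑ r ∈ I, w r := by
      have := Finset.card_nsmul_le_sum I w (w q) hqmin
      rwa [hI, nsmul_eq_mul] at this
    have hJ0 : 0 ≤ ∑ r ∈ J, w r := Finset.sum_nonneg fun r _ => hw r
    rcases Nat.eq_zero_or_pos m with hm0 | hmpos
    · obtain rfl : n = 0 := by omega
      simp only [Nat.cast_zero, zero_mul]
      positivity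
    · have hmR : (0 : ℝ) < m := by exact_mod_cast hmpos
      have hnR : (0 : ℝ) ≤ n := Nat.cast_nonneg n
      push_cast at hcard ⊢
      rw [hsum] at hJ4
      have h5 : (m : ℝ) * (n * ∑ r ∈ I, w r) ≤ m * ((m + 1) * ∑ r ∈ J, w r) := by
        have h6 := mul_le_mul_of_nonneg_left hJ4 (show (0 : ℝ) ≤ m + 1 by linarith)
        have h7 := mul_le_mul_of_nonneg_left hcard hnR
        nlinarith
      exact le_of_mul_le_mul_left h5 hmR

theorem t_DC : S_DC := by
  intro ι _ w hw hm I hD n hn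
  obtain ⟨J, h1, h2, h3, h4⟩ := dc_aux ι w hw hm I.card I rfl hD n hn
  exact ⟨J, h1, h2, h3, h4⟩

end Run7.h576.HD
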